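import Pool.Agent.H14.AM.Final

/-!
# AME states of `n` parties for all `n` up to `2 q + 1`, `q` the least prime power component of `d`
-/

set_option autoImplicit false

namespace Pool.Agent.Results.MP_88df09_mp.TwiceTheRange

open Pool.Agent.H14.AM

/-- Let `n ≥ 2`, `d ≥ 2`. Suppose that for every prime `p` dividing `d`, with `q = p ^ v_p(d)` the
exact power of `p` in `d`, we have `n ≤ 2 q + 1`, and `n ≠ 2 q` if `p = 2`. Then there is an
absolutely maximally entangled state of `n` parties of local dimension `d`. -/
theorem result (n d : ℕ) (hn : 2 ≤ n) (hd : 2 ≤ d)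
    (h : ∀ p : ℕ, p.Prime → p ∣ d →
      n ≤ 2 * p ^ d.factorization p + 1 ∧ (p = 2 → n ≠ 2 * p ^ d.factorization p)) :
    AME n d :=
  main n d hn hd h

end Pool.Agent.Results.MP_88df09_mp.TwiceTheRange
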